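import Pool.Agent.Helper58_MOO.Stmts

/-! PSD: density in the forcing `PS`. -/

open Cardinal
open Pool.Agent.Helper69_LOTS

namespace Pool.Agent.MOO.H81

open Node

theorem exists_lxmax {δ : Om} (s : Finset Node) (hs : s.Nonempty) (h : ∀ a ∈ s, a.ht = δ) :
    ∃ m ∈ s, ∀ a ∈ s, a = m ∨ Lx a m := by
  classical
  induction hs using Finset.Nonempty.cons_induction with
  | singleton a => exact ⟨a, by simp, fun b hb => Or.inl (by simpa using hb)⟩
  | cons a s ha hs ih =>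
    obtain ⟨m, hm, h1⟩ := ih (fun b hb => h b (Finset.mem_cons_of_mem hb))
    have hne : a ≠ m := fun e => ha (e ▸ hm)
    have hht : a.ht = m.ht := by
      rw [h a (Finset.mem_cons_self a s), h m (Finset.mem_cons_of_mem hm)]
    rcases (inc_of_ht_eq hht hne).lx_or with h2 | h2
    · refine ⟨m, Finset.mem_cons_of_mem hm, fun b hb => ?_⟩
      rcases Finset.mem_cons.1 hb with rfl | hb
      · exact Or.inr h2
      · exact h1 b hb
    · refine ⟨a, Finset.mem_cons_self a s, fun b hb => ?_⟩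
      rcases Finset.mem_cons.1 hb with rfl | hb
      · exact Or.inl rfl
      · rcases h1 b hb with rfl | h3
        · exact Or.inr h2
        · exact Or.inr (h3.trans h2)

theorem exists_lxmin {δ : Om} (s : Finset Node) (hs : s.Nonempty) (h : ∀ a ∈ s, a.ht = δ) :
    ∃ m ∈ s, ∀ a ∈ s, a = m ∨ Lx m a := by
  classical
  induction hs using Finset.Nonempty.cons_induction with
  | singleton a => exact ⟨a, by simp, fun b hb => Or.inl (by simpa using hb)⟩
  | cons a s ha hs ih =>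
    obtain ⟨m, hm, h1⟩ := ih (fun b hb => h b (Finset.mem_cons_of_mem hb))
    have hne : a ≠ m := fun e => ha (e ▸ hm)
    have hht : a.ht = m.ht := by
      rw [h a (Finset.mem_cons_self a s), h m (Finset.mem_cons_of_mem hm)]
    rcases (inc_of_ht_eq hht hne).lx_or with h2 | h2
    · refine ⟨a, Finset.mem_cons_self a s, fun b hb => ?_⟩
      rcases Finset.mem_cons.1 hb with rfl | hb
      · exact Or.inl rfl
      · rcases h1 b hb with rfl | h3
        · exact Or.inr h2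
        · exact Or.inr (h2.trans h3)
    · refine ⟨m, Finset.mem_cons_of_mem hm, fun b hb => ?_⟩
      rcases Finset.mem_cons.1 hb with rfl | hb
      · exact Or.inr h2
      · exact h1 b hb

variable {T S : Set Node} {C : Set Om}

/-- Adding one pair. -/
theorem addPair (p : PS T S C) (x y : Node) (hx : x ∈ T) (hxl : x.ht ∈ p.lev)
    (hxd : ∀ q ∈ p.gr, q.1 ≠ x) (hy : y ∈ S) (hyh : y.ht = x.ht)
    (hres : ∀ ξ ∈ p.lev, ξ < x.ht → (x.res ξ, y.res ξ) ∈ p.gr) (hyd : ∀ q ∈ p.gr, q.2 ≠ y)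
    (hsg : ∀ q ∈ p.gr, (Lx x q.1 → Lx y q.2) ∧ (Lx q.1 x → Lx q.2 y)) :
    ∃ q : PS T S C, q ≤ p ∧ q.lev = p.lev ∧ (x, y) ∈ q.gr := by
  classical
  refine ⟨⟨p.lev, insert (x, y) p.gr, p.levC, ?_, ?_, ?_, ?_⟩,
    ⟨Finset.Subset.refl _, Finset.subset_insert _ _⟩, rfl, Finset.mem_insert_self _ _⟩
  · intro a ha
    rcases Finset.mem_insert.1 ha with rfl | ha
    · exact ⟨hx, hy, hyh, hxl⟩
    · exact p.mem a ha
  · intro a ha ξ hξ hle
    rcases Finset.mem_insert.1 ha with rfl | ha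
    · rcases hle.lt_or_eq with h1 | h1
      · exact Finset.mem_insert_of_mem (hres ξ hξ h1)
      · simp only at h1 ⊢
        rw [h1, res_self]
        have : y.res x.ht = y := by rw [← hyh]; exact res_self y
        rw [this]
        exact Finset.mem_insert_self _ _
    · exact Finset.mem_insert_of_mem (p.res a ha ξ hξ hle)
  · intro a ha b hb
    rcases Finset.mem_insert.1 ha with rfl | ha
    · rcases Finset.mem_insert.1 hb with rfl | hb
      · simp
      · simp only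
        exact ⟨fun e => absurd e.symm (hxd b hb), fun e => absurd e.symm (hyd b hb)⟩
    · rcases Finset.mem_insert.1 hb with rfl | hb
      · simp only
        exact ⟨fun e => absurd e (hxd a ha), fun e => absurd e (hyd a ha)⟩
      · exact p.inj a ha b hb
  · intro a ha b hb hl
    rcases Finset.mem_insert.1 ha with rfl | ha
    · rcases Finset.mem_insert.1 hb with rfl | hb
      · exact absurd hl.inc (fun h => h.1 le_rfl)
      · exact (hsg b hb).1 hl
    · rcases Finset.mem_insert.1 hb with rfl | hb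
      · exact (hsg a ha).2 hl
      · exact p.sgn a ha b hb hl

/-- One step. `xm` is the restriction of `x` to the previous level (or a node below all). -/
theorem step (hS : AT S) (hD : DenseLev S C) (p : PS T S C) (x xm v : Node) (hx : x ∈ T)
    (hxl : x.ht ∈ p.lev) (hxd : ∀ q ∈ p.gr, q.1 ≠ x) (hxm : xm ≤ x) (hv : v ∈ S)
    (hvh : v.ht = xm.ht) (hlt : xm.ht < x.ht) (hlow : ∀ ξ ∈ p.lev, xm.ht < ξ → x.ht ≤ ξ)
    (hcase : (xm, v) ∈ p.gr ∨ ((∀ q ∈ p.gr, xm ≤ q.1 ∧ v ≤ q.2) ∧ ∀ ξ ∈ p.lev, xm.ht < ξ)) :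
    ∃ q : PS T S C, q ≤ p ∧ q.lev = p.lev ∧ ∃ y, (x, y) ∈ q.gr := by
  classical
  set δ := x.ht with hδ
  have hδC : δ ∈ C := p.levC δ hxl
  have hvδ : v.ht < δ := by rw [hvh]; exact hlt
  -- restriction of old pairs
  have hup : ∀ q ∈ p.gr, xm.ht < q.1.ht → (q.1.res δ, q.2.res δ) ∈ p.gr ∧ (q.1.res δ).ht = δ ∧
      (q.2.res δ).ht = δ := by
    intro q hq hlt'
    have m := p.mem q hq
    have h1 : δ ≤ q.1.ht := hlow _ m.2.2.2 hlt'
    exact ⟨p.res q hq δ hxl h1, res_ht_of_le h1, res_ht_of_le (by rw [m.2.2.1]; exact h1)⟩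
  -- position relative to `xm`
  have hiff : ∀ q ∈ p.gr, q.1.ht = δ → (xm ≤ q.1 ↔ v ≤ q.2) := by
    intro q hq hqh
    rcases hcase with h | h
    · have hml : xm.ht ∈ p.lev := (p.mem _ h).2.2.2
      have h1 := p.res q hq xm.ht hml (by rw [hqh]; exact hlt.le)
      have h2 := p.inj _ h _ h1
      rw [le_iff_res, le_iff_res, hvh]
      simp only at h2
      constructor
      · intro e; exact (h2.1 e.symm).symm
      · intro e; exact (h2.2 e.symm).symm
    · exact ⟨fun _ => (h.1 q hq).2, fun _ => (h.1 q hq).1⟩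
  have hresY : ∀ y : Node, y.ht = δ → v ≤ y → ∀ ξ ∈ p.lev, ξ < δ → (x.res ξ, y.res ξ) ∈ p.gr := by
    intro y hyh hvy ξ hξ hξδ
    have h1 : ξ ≤ xm.ht := not_lt.1 (fun h => absurd (hlow ξ hξ h) (not_le.2 hξδ))
    rcases hcase with h | h
    · have h2 := p.res _ h ξ hξ h1
      rw [res_eq_of_le hxm h1, res_eq_of_le hvy (by rw [hvh]; exact h1)]
      exact h2
    · exact absurd (h.2 ξ hξ) (not_lt.2 h1)
  -- upper nodes
  let W : Finset (Node × Node) := p.gr.filter (fun q => q.1.ht = δ ∧ xm ≤ q.1)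
  have hW : ∀ q, q ∈ W ↔ q ∈ p.gr ∧ q.1.ht = δ ∧ xm ≤ q.1 := by
    intro q; simp [W]
  have hWv : ∀ q ∈ W, q.2 ∈ S ∧ q.2.ht = δ ∧ v ≤ q.2 := by
    intro q hq
    obtain ⟨h1, h2, h3⟩ := (hW q).1 hq
    have m := p.mem q h1
    exact ⟨m.2.1, by rw [m.2.2.1]; exact h2, (hiff q h1 h2).1 h3⟩
  have hWor : ∀ q ∈ W, Lx q.1 x ∨ Lx x q.1 := by
    intro q hq
    obtain ⟨h1, h2, _⟩ := (hW q).1 hq
    exact (inc_of_ht_eq (s := q.1) (t := x) h2 (hxd q h1)).lx_or
  -- the left part and the right part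
  let A : Finset Node := (W.filter (fun q => Lx q.1 x)).image Prod.snd
  let B : Finset Node := (W.filter (fun q => Lx x q.1)).image Prod.snd
  have hA : ∀ a, a ∈ A ↔ ∃ q ∈ W, Lx q.1 x ∧ q.2 = a := by
    intro a
    simp only [A, Finset.mem_image, Finset.mem_filter]
    constructor
    · rintro ⟨q, ⟨h1, h2⟩, h3⟩; exact ⟨q, h1, h2, h3⟩
    · rintro ⟨q, h1, h2, h3⟩; exact ⟨q, ⟨h1, h2⟩, h3⟩
  have hB : ∀ a, a ∈ B ↔ ∃ q ∈ W, Lx x q.1 ∧ q.2 = a := by
    intro a
    simp only [B, Finset.mem_image, Finset.mem_filter]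
    constructor
    · rintro ⟨q, ⟨h1, h2⟩, h3⟩; exact ⟨q, h1, h2, h3⟩
    · rintro ⟨q, h1, h2, h3⟩; exact ⟨q, ⟨h1, h2⟩, h3⟩
  have hAB : ∀ a ∈ A, ∀ b ∈ B, Lx a b := by
    intro a ha b hb
    obtain ⟨q, h1, h2, rfl⟩ := (hA a).1 ha
    obtain ⟨r, h3, h4, rfl⟩ := (hB b).1 hb
    exact p.sgn q ((hW q).1 h1).1 r ((hW r).1 h3).1 (h2.trans h4)
  have hAht : ∀ a ∈ A, a.ht = δ := by
    intro a ha
    obtain ⟨q, h1, _, rfl⟩ := (hA a).1 ha
    exact (hWv q h1).2.1
  have hBht : ∀ a ∈ B, a.ht = δ := by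
    intro a ha
    obtain ⟨q, h1, _, rfl⟩ := (hB a).1 ha
    exact (hWv q h1).2.1
  -- choice of `y`
  obtain ⟨y, hy, hyh, hvy, hyA, hyB⟩ : ∃ y ∈ S, y.ht = δ ∧ v ≤ y ∧ (∀ a ∈ A, Lx a y) ∧
      ∀ b ∈ B, Lx y b := by
    by_cases hAe : A.Nonempty
    · obtain ⟨M, hM, hMmax⟩ := exists_lxmax (δ := δ) A hAe hAht
      obtain ⟨qM, hqM, _, rfl⟩ := (hA M).1 hM
      obtain ⟨m1, m2, m3⟩ := hWv qM hqM
      by_cases hBe : B.Nonempty
      · obtain ⟨n, hn, hnmin⟩ := exists_lxmin (δ := δ) B hBe hBht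
        obtain ⟨qn, hqn, _, rfl⟩ := (hB n).1 hn
        obtain ⟨n1, n2, n3⟩ := hWv qn hqn
        obtain ⟨y, hy, hyh, hvy, h1, h2⟩ := hD.mid δ hδC v hv hvδ qM.2 m1 qn.2 n1 m2 n2 m3 n3
          (hAB _ hM _ hn)
        refine ⟨y, hy, hyh, hvy, fun a ha => ?_, fun b hb => ?_⟩
        · rcases hMmax a ha with h3 | h3
          · rw [h3]; exact h1
          · exact h3.trans h1
        · rcases hnmin b hb with h3 | h3
          · rw [h3]; exact h2
          · exact h2.trans h3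
      · obtain ⟨y, hy, hyh, hvy, h1⟩ := hD.right δ hδC v hv hvδ qM.2 m1 m2 m3
        refine ⟨y, hy, hyh, hvy, fun a ha => ?_, fun b hb => absurd ⟨b, hb⟩ hBe⟩
        rcases hMmax a ha with h3 | h3
        · rw [h3]; exact h1
        · exact h3.trans h1
    · by_cases hBe : B.Nonempty
      · obtain ⟨n, hn, hnmin⟩ := exists_lxmin (δ := δ) B hBe hBht
        obtain ⟨qn, hqn, _, rfl⟩ := (hB n).1 hn
        obtain ⟨n1, n2, n3⟩ := hWv qn hqn
        obtain ⟨y, hy, hyh, hvy, h2⟩ := hD.left δ hδC v hv hvδ qn.2 n1 n2 n3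
        refine ⟨y, hy, hyh, hvy, fun a ha => absurd ⟨a, ha⟩ hAe, fun b hb => ?_⟩
        rcases hnmin b hb with h3 | h3
        · rw [h3]; exact h2
        · exact h2.trans h3
      · obtain ⟨y, hy, hvy, hyh⟩ := hS.ext v hv δ hvδ.le
        exact ⟨y, hy, hyh, hvy, fun a ha => absurd ⟨a, ha⟩ hAe, fun b hb => absurd ⟨b, hb⟩ hBe⟩
  have hyW : ∀ b ∈ W, b.2 ≠ y := by
    intro b hb e
    rcases hWor b hb with h1 | h1
    · have := hyA b.2 ((hA _).2 ⟨b, hb, h1, rfl⟩)
      rw [e] at this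
      exact this.asymm this
    · have := hyB b.2 ((hB _).2 ⟨b, hb, h1, rfl⟩)
      rw [e] at this
      exact this.asymm this
  refine Exists.imp (fun q h => ⟨h.1, h.2.1, y, h.2.2⟩)
    (addPair p x y hx hxl hxd hy hyh (hresY y hyh hvy) ?_ ?_)
  · intro q hq e
    have hqh : q.1.ht = δ := by rw [← (p.mem q hq).2.2.1, e]; exact hyh
    exact hyW q ((hW q).2 ⟨hq, hqh, (hiff q hq hqh).2 (by rw [e]; exact hvy)⟩) e
  · intro b hb
    by_cases hinc : Inc x b.1
    swap
    · exact ⟨fun h => absurd h.inc hinc, fun h => absurd h.inc.symm hinc⟩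
    obtain ⟨w, hw⟩ := hinc.exists_mt
    rcases lt_or_ge w.ht xm.ht with h1 | h1
    · have hmt : Mt w xm b.1 := hw.of_le hxm le_rfl h1 hw.2.2.2.1
      rcases hcase with h | h
      · constructor
        · intro hl
          have h2 : Lx xm b.1 := hl.of_le hxm le_rfl hmt.inc
          exact (p.sgn _ h _ hb h2).mono hvy le_rfl
        · intro hl
          have h2 : Lx b.1 xm := hl.of_le le_rfl hxm hmt.inc.symm
          exact (p.sgn _ hb _ h h2).mono le_rfl hvy
      · exact absurd (h.1 b hb).1 hmt.inc.1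
    · have h2 : xm.ht < b.1.ht := h1.trans_lt hw.2.2.2.1
      obtain ⟨h3, h4, h5⟩ := hup b hb h2
      have hwδ : w.ht < δ := hw.2.2.1
      have h6 : Mt w x (b.1.res δ) := by
        refine hw.of_le le_rfl (res_le _ _) hw.2.2.1 ?_
        rw [h4]; exact hwδ
      have h7 : (b.1.res δ, b.2.res δ) ∈ W :=
        (hW _).2 ⟨h3, h4, (le_of_le_le hxm hw.1 h1).trans h6.2.1⟩
      constructor
      · intro hl
        have h8 : Lx x (b.1.res δ) := hl.of_le le_rfl (res_le _ _) h6.inc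
        exact (hyB _ ((hB _).2 ⟨_, h7, h8, rfl⟩)).mono le_rfl (res_le _ _)
      · intro hl
        have h8 : Lx (b.1.res δ) x := hl.of_le (res_le _ _) le_rfl h6.inc.symm
        exact (hyA _ ((hA _).2 ⟨_, h7, h8, rfl⟩)).mono (res_le _ _) le_rfl

theorem main (hT : AT T) (hS : AT S) (hD : DenseLev S C) :
    ∀ n : ℕ, ∀ (p : PS T S C) (x : Node), x ∈ T → x.ht ∈ p.lev →
      (p.lev.filter (fun ξ => ξ < x.ht)).card = n →
      ∃ q : PS T S C, q ≤ p ∧ q.lev = p.lev ∧ ∃ y, (x, y) ∈ q.gr := by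
  classical
  intro n
  induction n using Nat.strong_induction_on with
  | _ n ih =>
    intro p x hx hxl hn
    by_cases hxd : ∃ q ∈ p.gr, q.1 = x
    · obtain ⟨q, hq, rfl⟩ := hxd
      exact ⟨p, le_rfl, rfl, q.2, hq⟩
    by_cases hlow : (p.lev.filter (fun ξ => ξ < x.ht)).Nonempty
    · -- previous level
      obtain ⟨d, hd, hdmax⟩ := Finset.exists_max_image _ id hlow
      obtain ⟨hd1, hd2⟩ := Finset.mem_filter.1 hd
      have hdh : (x.res d).ht = d := res_ht_of_le hd2.le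
      obtain ⟨p1, hp1, hl1, v, hv⟩ := ih (p.lev.filter (fun ξ => ξ < (x.res d).ht)).card (by
        rw [← hn]
        refine Finset.card_lt_card ⟨?_, ?_⟩
        · intro ξ hξ
          rw [Finset.mem_filter, hdh] at hξ
          exact Finset.mem_filter.2 ⟨hξ.1, hξ.2.trans hd2⟩
        · intro hcon
          have := hcon hd
          rw [Finset.mem_filter, hdh] at this
          exact lt_irrefl _ this.2) p (x.res d) (hT.down x hx d) (by rw [hdh]; exact hd1) rfl
      by_cases hxd1 : ∃ q ∈ p1.gr, q.1 = x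
      · obtain ⟨q, hq, rfl⟩ := hxd1
        exact ⟨p1, hp1, hl1, q.2, hq⟩
      push Not at hxd1
      have hvm := p1.mem _ hv
      simp only at hvm
      obtain ⟨q, hq, hl, y, hy⟩ := step hS hD p1 x (x.res d) v hx (by rw [hl1]; exact hxl) hxd1
        (res_le _ _) hvm.2.1 hvm.2.2.1 (by rw [hdh]; exact hd2) (by
          intro ξ hξ hlt
          rw [hdh] at hlt
          by_contra hcon
          push Not at hcon
          rw [hl1] at hξ
          exact absurd (hdmax ξ (Finset.mem_filter.2 ⟨hξ, hcon⟩)) (not_le.2 hlt)) (Or.inl hv)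
      exact ⟨q, hq.trans hp1, hl.trans hl1, y, hy⟩
    · -- first level
      push Not at hxd
      have hlow' : ∀ ξ ∈ p.lev, x.ht ≤ ξ := by
        intro ξ hξ
        by_contra hcon
        push Not at hcon
        exact hlow ⟨ξ, Finset.mem_filter.2 ⟨hξ, hcon⟩⟩
      have hlim := hD.lim _ (p.levC _ hxl)
      obtain ⟨o, -, ho⟩ := Om_least (p := fun _ : Om => True) ⟨x.ht, trivial⟩
      have ho' : ∀ ξ : Om, o ≤ ξ := fun ξ => not_lt.1 (fun h => ho ξ h trivial)
      have hox : o < x.ht := by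
        obtain ⟨ξ, hξ⟩ := hlim.1
        exact (ho' ξ).trans_lt hξ
      obtain ⟨s, hs⟩ := hS.ne
      have h1 : (x.res o).ht = o := res_ht_of_le hox.le
      have h2 : (s.res o).ht = o := res_ht_of_le (ho' _)
      have hroot : ∀ a b : Node, a.ht = o → a ≤ b := by
        intro a b ha
        exact ⟨by rw [ha]; exact ho' _, fun η hη => absurd hη (by
          rw [ha]; exact not_lt.2 (ho' _))⟩
      exact step hS hD p x (x.res o) (s.res o) hx hxl hxd (res_le _ _) (hS.down s hs o)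
        (by rw [h1, h2]) (by rw [h1]; exact hox) (fun ξ hξ _ => hlow' ξ hξ)
        (Or.inr ⟨fun q _ => ⟨hroot _ _ h1, hroot _ _ h2⟩, fun ξ hξ => by
          rw [h1]; exact hox.trans_le (hlow' ξ hξ)⟩)

/-- PSD -/
theorem psd : PsdStmt := by
  intro T S C hT hS hD p x hx hxl
  obtain ⟨q, hq, -, y, hy⟩ := main hT hS hD _ p x hx hxl rfl
  exact ⟨q, hq, y, hy⟩

end Pool.Agent.MOO.H81
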